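import Pool.Agent.Helper90.QF.St

/-!
Module ABS of project QF (MP_04a253_al): transfer of solutions along first order towers.
-/

set_option autoImplicit false

namespace Pool.Agent.Helper30.QF

open Pool.Agent.Helper90.QF MvPolynomial

section ext

variable {R M N : Type} [CommRing R] [IsDomain R] [AddCommGroup M] [AddCommGroup N] [Module R M]
  [Module R N]

/-- The extension of a graph by one more solution. -/
def extW (W : Submodule R (M × N)) (e : M) (z : N) : Submodule R (M × N) where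
  carrier := {v | ∃ p : R, p ≠ 0 ∧ ∃ q : R, (p • v.1 - q • e, p • v.2 - q • z) ∈ W}
  zero_mem' := ⟨1, one_ne_zero, 0, by simp; exact W.zero_mem⟩
  add_mem' := by
    rintro ⟨x1, y1⟩ ⟨x2, y2⟩ ⟨p1, hp1, q1, h1⟩ ⟨p2, hp2, q2, h2⟩
    refine ⟨p1 * p2, mul_ne_zero hp1 hp2, p2 * q1 + p1 * q2, ?_⟩
    have h3 := W.add_mem (W.smul_mem p2 h1) (W.smul_mem p1 h2)
    have h4 : p2 • (p1 • x1 - q1 • e, p1 • y1 - q1 • z) + p1 • (p2 • x2 - q2 • e, p2 • y2 - q2 • z) =
        ((p1 * p2) • (x1 + x2) - (p2 * q1 + p1 * q2) • e,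
          (p1 * p2) • (y1 + y2) - (p2 * q1 + p1 * q2) • z) := by
      ext
      · simp only [Prod.smul_mk, Prod.mk_add_mk]
        module
      · simp only [Prod.smul_mk, Prod.mk_add_mk]
        module
    rw [h4] at h3
    exact h3
  smul_mem' := by
    rintro c ⟨x, y⟩ ⟨p, hp, q, h⟩
    refine ⟨p, hp, c * q, ?_⟩
    have h3 := W.smul_mem c h
    have h4 : c • (p • x - q • e, p • y - q • z) = (p • (c • x) - (c * q) • e, p • (c • y) - (c * q) • z) := by
      ext
      · simp only [Prod.smul_mk]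
        module
      · simp only [Prod.smul_mk]
        module
    rw [h4] at h3
    exact h3

theorem mem_extW (W : Submodule R (M × N)) (e : M) (z : N) (x : M) (y : N) :
    (x, y) ∈ extW W e z ↔ ∃ p : R, p ≠ 0 ∧ ∃ q : R, (p • x - q • e, p • y - q • z) ∈ W :=
  Iff.rfl

theorem le_extW (W : Submodule R (M × N)) (e : M) (z : N) : W ≤ extW W e z := by
  rintro ⟨x, y⟩ h
  exact ⟨1, one_ne_zero, 0, by simpa using h⟩

theorem self_mem_extW (W : Submodule R (M × N)) (e : M) (z : N) : (e, z) ∈ extW W e z :=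
  ⟨1, one_ne_zero, 1, by simp; exact W.zero_mem⟩

theorem good_extW (D : R → R) (ϑ : M → M) (θ : N → N)
    (aϑ : ∀ x y, ϑ (x + y) = ϑ x + ϑ y) (aθ : ∀ x y, θ (x + y) = θ x + θ y)
    (dϑ : ∀ (p : R) (x : M), ϑ (p • x) = p • ϑ x + D p • x)
    (dθ : ∀ (p : R) (z : N), θ (p • z) = p • θ z + D p • z)
    (tN : ∀ p : R, p ≠ 0 → ∀ z : N, p • z = 0 → z = 0)
    (W : Submodule R (M × N)) (hW : Good ϑ θ W) (e s : M) (z σ : N) (p0 α : R) (hp0 : p0 ≠ 0)
    (hs : (s, σ) ∈ W) (he : p0 • ϑ e = α • e + s) (hz : p0 • θ z = α • z + σ)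
    (hfree : ∀ (p : R) (y : N), (p • e, y) ∈ W → p = 0) : Good ϑ θ (extW W e z) := by
  have sϑ : ∀ x y, ϑ (x - y) = ϑ x - ϑ y := by
    intro x y
    have h := aϑ (x - y) y
    rw [sub_add_cancel] at h
    rw [h, add_sub_cancel_right]
  have sθ : ∀ x y, θ (x - y) = θ x - θ y := by
    intro x y
    have h := aθ (x - y) y
    rw [sub_add_cancel] at h
    rw [h, add_sub_cancel_right]
  refine ⟨?_, ?_, ?_⟩
  · intro y hy
    obtain ⟨p, hp, q, h⟩ := hy
    simp only [smul_zero, zero_sub] at h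
    have hq : -q = 0 := hfree (-q) (p • y - q • z) (by rw [neg_smul]; exact h)
    have hq' : q = 0 := neg_eq_zero.mp hq
    subst hq'
    simp only [zero_smul, neg_zero, sub_zero] at h
    exact tN p hp y (hW.fn _ h)
  · intro p hp x y hxy
    obtain ⟨p1, hp1, q, h⟩ := hxy
    refine ⟨p1 * p, mul_ne_zero hp1 hp, q, ?_⟩
    simpa only [mul_smul] using h
  · intro x y hxy
    obtain ⟨p, hp, q, h⟩ := hxy
    dsimp only at h
    refine ⟨p0 * p ^ 2, mul_ne_zero hp0 (pow_ne_zero 2 hp), p * q * α + p0 * p * D q - p0 * q * D p, ?_⟩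
    dsimp only
    have h1 := hW.der _ _ h
    have h2 := W.add_mem (W.sub_mem (W.smul_mem (p0 * p) h1) (W.smul_mem (p0 * D p) h))
      (W.smul_mem (p * q) hs)
    have e1 : (p0 * p ^ 2) • ϑ x - (p * q * α + p0 * p * D q - p0 * q * D p) • e =
        (p0 * p) • ϑ (p • x - q • e) - (p0 * D p) • (p • x - q • e) + (p * q) • s := by
      rw [sϑ, dϑ, dϑ]
      have : (p0 * p) • (p • ϑ x + D p • x - (q • ϑ e + D q • e)) =
        (p0 * p ^ 2) • ϑ x + (p0 * p * D p) • x - (p * q) • (p0 • ϑ e) - (p0 * p * D q) • e := by module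
      rw [this, he]
      module
    have e2 : (p0 * p ^ 2) • θ y - (p * q * α + p0 * p * D q - p0 * q * D p) • z =
        (p0 * p) • θ (p • y - q • z) - (p0 * D p) • (p • y - q • z) + (p * q) • σ := by
      rw [sθ, dθ, dθ]
      have : (p0 * p) • (p • θ y + D p • y - (q • θ z + D q • z)) =
        (p0 * p ^ 2) • θ y + (p0 * p * D p) • y - (p * q) • (p0 • θ z) - (p0 * p * D q) • z := by module
      rw [this, hz]
      module
    rw [e1, e2]
    exact h2

end ext

theorem hABS : StABS := by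
  intro R M N _ _ _ _ _ _ D ϑ θ aϑ aθ dϑ dθ tM tN dN e0 z0 he0 hϑ0 hθ0
  have zϑ : ϑ 0 = 0 := by
    have h := aϑ 0 0
    rw [add_zero] at h
    exact left_eq_add.mp h
  have zθ : θ 0 = 0 := by
    have h := aθ 0 0
    rw [add_zero] at h
    exact left_eq_add.mp h
  -- the bottom graph
  have gbot : Good ϑ θ (⊥ : Submodule R (M × N)) := by
    refine ⟨?_, ?_, ?_⟩
    · intro z hz
      rw [Submodule.mem_bot] at hz
      exact (Prod.mk.inj hz).2
    · intro p hp x z hxz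
      rw [Submodule.mem_bot] at hxz ⊢
      obtain ⟨h1, h2⟩ := Prod.mk.inj hxz
      rw [tM p hp x h1, tN p hp z h2]
      rfl
    · intro x z hxz
      rw [Submodule.mem_bot] at hxz ⊢
      obtain ⟨h1, h2⟩ := Prod.mk.inj hxz
      rw [h1, h2, zϑ, zθ]
      rfl
  have g0 : Good ϑ θ (extW (⊥ : Submodule R (M × N)) e0 z0) := by
    refine good_extW D ϑ θ aϑ aθ dϑ dθ tN ⊥ gbot e0 0 z0 0 1 0 one_ne_zero
      (Submodule.zero_mem _) (by rw [hϑ0]; simp) (by rw [hθ0]; simp) ?_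
    intro p y hp
    rw [Submodule.mem_bot] at hp
    by_contra hne
    exact he0 (tM p hne e0 (Prod.mk.inj hp).1)
  -- Zorn
  obtain ⟨W, hW0, hWmax⟩ := zorn_le_nonempty₀ {W : Submodule R (M × N) | Good ϑ θ W} (by
    intro c hc hchain y hy
    refine ⟨sSup c, ?_, fun z hz => le_sSup hz⟩
    have hdir : DirectedOn (· ≤ ·) c := hchain.directedOn
    have hne : c.Nonempty := ⟨y, hy⟩
    refine ⟨?_, ?_, ?_⟩
    · intro z hz
      rw [Submodule.mem_sSup_of_directed hne hdir] at hz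
      obtain ⟨V, hV, hzV⟩ := hz
      exact (hc hV).fn z hzV
    · intro p hp x z hxz
      rw [Submodule.mem_sSup_of_directed hne hdir] at hxz ⊢
      obtain ⟨V, hV, hzV⟩ := hxz
      exact ⟨V, hV, (hc hV).sat p hp x z hzV⟩
    · intro x z hxz
      rw [Submodule.mem_sSup_of_directed hne hdir] at hxz ⊢
      obtain ⟨V, hV, hzV⟩ := hxz
      exact ⟨V, hV, (hc hV).der x z hzV⟩) _ g0
  have gW : Good ϑ θ W := hWmax.prop
  refine ⟨W, gW, hW0 (self_mem_extW _ e0 z0), ?_⟩
  rintro e s σ p0 α hp0 hs he ⟨z, hz⟩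
  by_cases hex : ∃ (p : R) (y : N), p ≠ 0 ∧ (p • e, y) ∈ W
  · obtain ⟨p, y, hp, hy⟩ := hex
    obtain ⟨z', hz'⟩ := dN p hp y
    rw [← hz'] at hy
    have h1 : (e, z') ∈ W := gW.sat p hp e z' hy
    refine ⟨z', h1, ?_⟩
    have h2 := gW.der _ _ h1
    have h3 := W.sub_mem (W.sub_mem (W.smul_mem p0 h2) (W.smul_mem α h1)) hs
    have h4 : p0 • (ϑ e, θ z') - α • (e, z') - (s, σ) = (0, p0 • θ z' - α • z' - σ) := by
      ext
      · simp only [Prod.smul_mk, Prod.mk_sub_mk]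
        rw [he]
        abel
      · simp only [Prod.smul_mk, Prod.mk_sub_mk]
    rw [h4] at h3
    have h5 := gW.fn _ h3
    rw [sub_sub, sub_eq_zero] at h5
    exact h5
  · have hfree : ∀ (p : R) (y : N), (p • e, y) ∈ W → p = 0 := by
      intro p y hy
      by_contra hne
      exact hex ⟨p, y, hne, hy⟩
    have g1 := good_extW D ϑ θ aϑ aθ dϑ dθ tN W gW e s z σ p0 α hp0 hs he hz hfree
    have hle := hWmax.le_of_ge g1 (le_extW W e z)
    exact ⟨z, hle (self_mem_extW W e z), hz⟩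

end Pool.Agent.Helper30.QF
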